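import Mathlib
import Pool.Agent.Helper93.WP.St

/-!
# Project WP, module NV: the auxiliary polynomial is not zero
-/

set_option autoImplicit false

namespace Pool.Agent.Helper35.WP

open Polynomial Pool.Agent.Helper93.WP

theorem exists_tau {k : Type*} [Field k] [IsAlgClosed k] (h2 : (2 : k) ≠ 0) {n h : k}
    (hn : n ≠ 0) (hh : h ≠ 0) : ∃ tau : k, tau ^ 2 = 4 * n ∧ (tau + h) ^ 2 ≠ 4 * n := by
  obtain ⟨s, hs⟩ := IsAlgClosed.exists_pow_nat_eq n (n := 2) (by norm_num)
  have hs0 : s ≠ 0 := by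
    rintro rfl
    exact hn (by rw [← hs]; ring)
  by_cases h1 : h + 4 * s = 0
  · refine ⟨-2 * s, by rw [← hs]; ring, ?_⟩
    intro h3
    have h4 : h * (h - 4 * s) = 0 := by
      rw [← hs] at h3
      linear_combination h3
    rcases mul_eq_zero.1 h4 with h5 | h5
    · exact hh h5
    · have h6 : (2 : k) * (2 * (2 * s)) = 0 := by linear_combination h1 - h5
      rcases mul_eq_zero.1 h6 with h7 | h7
      · exact h2 h7
      · rcases mul_eq_zero.1 h7 with h8 | h8
        · exact h2 h8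
        · rcases mul_eq_zero.1 h8 with h9 | h9
          · exact h2 h9
          · exact hs0 h9
  · refine ⟨2 * s, by rw [← hs]; ring, ?_⟩
    intro h3
    have h4 : h * (h + 4 * s) = 0 := by
      rw [← hs] at h3
      linear_combination h3
    rcases mul_eq_zero.1 h4 with h5 | h5
    · exact hh h5
    · exact h1 h5

theorem aux_eq {k : Type*} [Field k] (p : ℕ) (D : k[X]) (a b c : ℕ) (lam : ℕ → ℕ → ℕ → k) :
    aux p D a b c lam = ∑ i ∈ Finset.range a, ∑ j ∈ Finset.range b,
      X ^ i * D ^ j * (∑ l ∈ Finset.range c, C (lam i j l) * X ^ l : k[X]).comp (X ^ p) := by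
  unfold aux
  refine Finset.sum_congr rfl fun i _ => Finset.sum_congr rfl fun j _ => ?_
  rw [Polynomial.sum_comp, Finset.mul_sum]
  refine Finset.sum_congr rfl fun l _ => ?_
  simp only [mul_comp, C_comp, pow_comp, X_comp]
  rw [← pow_mul]
  ring

theorem hNV (hZE : StZE) : StNV := by
  intro k _ _ p _ _ hp2 n h D a b c lam hn hh hD ha hb hab hlam hzero
  classical
  have hp : p.Prime := Fact.out
  have h2k : (2 : k) ≠ 0 := by
    have : ((2 : ℕ) : k) ≠ 0 := by
      rw [Ne, CharP.cast_eq_zero_iff k p 2]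
      intro hd
      exact hp2 ((Nat.prime_dvd_prime_iff_eq hp Nat.prime_two).1 hd)
    simpa using this
  obtain ⟨tau, ht1, ht2⟩ := exists_tau h2k hn hh
  set y : k[X] := (X - C tau) ^ p with hy
  have hy0 : y ≠ 0 := pow_ne_zero _ (X_sub_C_ne_zero tau)
  have hXp : (X : k[X]) ^ p = y + C (tau ^ p) := by
    rw [hy, sub_pow_char, C_pow]
    ring
  set f : ℕ → ℕ → k[X] := fun i j => ∑ l ∈ Finset.range c, C (lam i j l) * X ^ l with hf
  set g : ℕ → ℕ → k[X] := fun i j => taylor (tau ^ p) (f i j) with hg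
  have hfg : ∀ i j, (f i j).comp (X ^ p) = (g i j).comp y := by
    intro i j
    rw [hXp, hg]
    simp only [taylor_apply, comp_assoc, add_comp, X_comp, C_comp]
  -- some `g i j` is not zero
  obtain ⟨i0, hi0, j0, hj0, l0, hl0, hne⟩ := hlam
  have hf0 : f i0 j0 ≠ 0 := by
    intro h0
    apply hne
    have : (f i0 j0).coeff l0 = lam i0 j0 l0 := by
      simp only [hf, finsetSum_coeff, coeff_C_mul, coeff_X_pow]
      simp [hl0]
    rw [← this, h0, coeff_zero]
  have hg0 : g i0 j0 ≠ 0 := by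
    intro h0
    apply hf0
    exact (taylor_injective (tau ^ p)) (by rw [map_zero]; exact h0)
  have hex : ∃ q, ∃ i < a, ∃ j < b, (g i j).coeff q ≠ 0 := by
    by_contra hcon
    push Not at hcon
    apply hg0
    ext q
    rw [coeff_zero]
    exact hcon q i0 hi0 j0 hj0
  set q := Nat.find hex with hq
  have hqs := Nat.find_spec hex
  have hqm : ∀ q' < q, ∀ i < a, ∀ j < b, (g i j).coeff q' = 0 := by
    intro q' hq' i hi j hj
    by_contra hcon
    exact Nat.find_min hex hq' ⟨i, hi, j, hj, hcon⟩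
  have hdiv : ∀ i < a, ∀ j < b, ∃ r : k[X], g i j = X ^ q * r := by
    intro i hi j hj
    have : X ^ q ∣ g i j := X_pow_dvd_iff.2 fun d hd => hqm d hd i hi j hj
    exact this
  choose! r hr using hdiv
  have hcoef : ∀ i < a, ∀ j < b, (r i j).coeff 0 = (g i j).coeff q := by
    intro i hi j hj
    rw [hr i hi j hj, coeff_X_pow_mul']
    simp
  -- divide `aux = 0` by `y ^ q`
  have h1 : y ^ q * (∑ i ∈ Finset.range a, ∑ j ∈ Finset.range b,
      X ^ i * D ^ j * (r i j).comp y) = 0 := by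
    rw [← hzero, aux_eq, Finset.mul_sum]
    refine Finset.sum_congr rfl fun i hi => ?_
    rw [Finset.mul_sum]
    refine Finset.sum_congr rfl fun j hj => ?_
    have h3 : (∑ l ∈ Finset.range c, C (lam i j l) * X ^ l : k[X]) = f i j := rfl
    rw [h3, hfg i j, hr i (Finset.mem_range.1 hi) j (Finset.mem_range.1 hj), mul_comp, pow_comp,
      X_comp]
    ring
  have h2 := (mul_eq_zero.1 h1).resolve_left (pow_ne_zero _ hy0)
  have h3 : y ∣ ∑ i ∈ Finset.range a, ∑ j ∈ Finset.range b,
      C ((g i j).coeff q) * X ^ i * D ^ j := by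
    have e : (∑ i ∈ Finset.range a, ∑ j ∈ Finset.range b, C ((g i j).coeff q) * X ^ i * D ^ j) =
        (∑ i ∈ Finset.range a, ∑ j ∈ Finset.range b, X ^ i * D ^ j * (r i j).comp y) -
        y * (∑ i ∈ Finset.range a, ∑ j ∈ Finset.range b,
          X ^ i * D ^ j * (divX (r i j)).comp y) := by
      rw [Finset.mul_sum, ← Finset.sum_sub_distrib]
      refine Finset.sum_congr rfl fun i hi => ?_
      rw [Finset.mul_sum, ← Finset.sum_sub_distrib]
      refine Finset.sum_congr rfl fun j hj => ?_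
      have h5 : (r i j).comp y = (divX (r i j)).comp y * y + C ((g i j).coeff q) := by
        conv_lhs => rw [← divX_mul_X_add (r i j)]
        rw [add_comp, mul_comp, X_comp, C_comp,
          hcoef i (Finset.mem_range.1 hi) j (Finset.mem_range.1 hj)]
      rw [h5]
      ring
    rw [e, h2, zero_sub]
    exact (Dvd.intro _ rfl).neg_right
  -- the zero estimate
  obtain ⟨i1, hi1, j1, hj1, hne1⟩ := hqs
  have hK : (2 * (a - 1) + 1) * (b - 1 + 1) ≤ (p - 1) / 2 + 1 := by
    obtain ⟨a', rfl⟩ : ∃ a', a = a' + 1 := ⟨a - 1, by omega⟩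
    obtain ⟨b', rfl⟩ : ∃ b', b = b' + 1 := ⟨b - 1, by omega⟩
    simp only [Nat.add_sub_cancel]
    have h6 : 2 * ((2 * a' + 1) * (b' + 1)) ≤ p + 1 := by nlinarith
    have hodd : p % 2 = 1 := by
      rcases hp.eq_two_or_odd with h7 | h7
      · exact absurd h7 hp2
      · exact h7
    omega
  have hKp : (2 * (a - 1) + 1) * (b - 1 + 1) ≤ p := by
    have := hp.two_le
    omega
  have h7 := hZE k p hp2 n h tau D (a - 1) (b - 1) (fun i j => (g i j).coeff q) hn ht1 ht2 hD hK
    ⟨i1, by omega, j1, by omega, hne1⟩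
  apply h7
  rw [show a - 1 + 1 = a by omega]
  refine dvd_trans (pow_dvd_pow _ hKp) ?_
  rw [show b - 1 + 1 = b by omega]
  exact h3

end Pool.Agent.Helper35.WP
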